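import Pool.Agent.W593.IR.Stm3

/-!
# The polynomial inequality for `k = 5` (task IR3-PH5)
-/

set_option autoImplicit false

namespace Pool.Agent.W575.IR

open Finset Pool.Agent.W593.IR

theorem Ph52 (ρ : ℝ) : Ph 5 2 ρ = ρ ^ 5 * (1 / 4) + 5 * (1 - ρ) * ρ ^ 4 * (1 / 2) +
    10 * (1 - ρ) ^ 2 * ρ ^ 3 + 10 * (1 - ρ) ^ 3 * ρ ^ 2 + 5 * (1 - ρ) ^ 4 * ρ + (1 - ρ) ^ 5 := by
  unfold Ph
  simp only [Finset.sum_range_succ, Finset.sum_range_zero]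
  norm_num [Nat.choose]

theorem Ph53 (ρ : ℝ) : Ph 5 3 ρ = ρ ^ 5 * (8 / 27) + 5 * (1 - ρ) * ρ ^ 4 * (4 / 9) +
    10 * (1 - ρ) ^ 2 * ρ ^ 3 * (2 / 3) + 10 * (1 - ρ) ^ 3 * ρ ^ 2 + 5 * (1 - ρ) ^ 4 * ρ +
    (1 - ρ) ^ 5 := by
  unfold Ph
  simp only [Finset.sum_range_succ, Finset.sum_range_zero]
  norm_num [Nat.choose]

theorem Ph54 (ρ : ℝ) : Ph 5 4 ρ = ρ ^ 5 * (81 / 256) + 5 * (1 - ρ) * ρ ^ 4 * (27 / 64) +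
    10 * (1 - ρ) ^ 2 * ρ ^ 3 * (9 / 16) + 10 * (1 - ρ) ^ 3 * ρ ^ 2 * (3 / 4) +
    5 * (1 - ρ) ^ 4 * ρ + (1 - ρ) ^ 5 := by
  unfold Ph
  simp only [Finset.sum_range_succ, Finset.sum_range_zero]
  norm_num [Nat.choose]

theorem pows (t : ℝ) (h0 : 0 ≤ t) (h1 : t ≤ 1 / 40) :
    0 ≤ t ^ 2 ∧ 0 ≤ t ^ 3 ∧ 0 ≤ t ^ 4 ∧ 0 ≤ t ^ 5 ∧
    t ^ 2 ≤ 1 / 40 * t ∧ t ^ 3 ≤ 1 / 1600 * t ∧ t ^ 4 ≤ 1 / 64000 * t ∧
    t ^ 5 ≤ 1 / 2560000 * t := by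
  have h2 : t ^ 2 ≤ 1 / 40 * t := by
    have := mul_le_mul_of_nonneg_right h1 h0
    calc t ^ 2 = t * t := by ring
      _ ≤ _ := this
  have h3 : t ^ 3 ≤ 1 / 1600 * t := by
    have := mul_le_mul_of_nonneg_left h2 h0
    calc t ^ 3 = t * t ^ 2 := by ring
      _ ≤ t * (1 / 40 * t) := this
      _ = 1 / 40 * t ^ 2 := by ring
      _ ≤ _ := by linarith
  have h4 : t ^ 4 ≤ 1 / 64000 * t := by
    have := mul_le_mul_of_nonneg_left h3 h0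
    calc t ^ 4 = t * t ^ 3 := by ring
      _ ≤ t * (1 / 1600 * t) := this
      _ = 1 / 1600 * t ^ 2 := by ring
      _ ≤ _ := by linarith
  have h5 : t ^ 5 ≤ 1 / 2560000 * t := by
    have := mul_le_mul_of_nonneg_left h4 h0
    calc t ^ 5 = t * t ^ 4 := by ring
      _ ≤ t * (1 / 64000 * t) := this
      _ = 1 / 64000 * t ^ 2 := by ring
      _ ≤ _ := by linarith
  exact ⟨by positivity, by positivity, by positivity, by positivity, h2, h3, h4, h5⟩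

theorem left (ρ : ℝ) (h0 : 8 / 9 ≤ ρ) (h1 : ρ ≤ 913236 / 1000000) :
    (1 - ρ / 5) ^ 5 ≤ Ph 5 2 ρ ∧ (1 - ρ / 5) ^ 5 ≤ Ph 5 3 ρ ∧ (1 - ρ / 5) ^ 5 ≤ Ph 5 4 ρ := by
  obtain ⟨t, ht⟩ : ∃ t : ℝ, t = 913236 / 1000000 - ρ := ⟨_, rfl⟩
  have hρ : ρ = 913236 / 1000000 - t := by linarith
  have ht0 : 0 ≤ t := by linarith
  have ht1 : t ≤ 1 / 40 := by linarith
  obtain ⟨a2, a3, a4, a5, b2, b3, b4, b5⟩ := pows t ht0 ht1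
  rw [Ph52, Ph53, Ph54, hρ]
  refine ⟨?_, ?_, ?_⟩ <;> linarith

theorem right (ρ : ℝ) (h0 : 913236 / 1000000 ≤ ρ) (h1 : ρ ≤ 25 / 27) :
    1 - ρ ^ 5 ≤ Ph 5 2 ρ ∧ 1 - ρ ^ 5 ≤ Ph 5 3 ρ ∧ 1 - ρ ^ 5 ≤ Ph 5 4 ρ := by
  obtain ⟨t, ht⟩ : ∃ t : ℝ, t = ρ - 913236 / 1000000 := ⟨_, rfl⟩
  have hρ : ρ = 913236 / 1000000 + t := by linarith
  have ht0 : 0 ≤ t := by linarith
  have ht1 : t ≤ 1 / 40 := by linarith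
  obtain ⟨a2, a3, a4, a5, b2, b3, b4, b5⟩ := pows t ht0 ht1
  rw [Ph52, Ph53, Ph54, hρ]
  refine ⟨?_, ?_, ?_⟩ <;> linarith

theorem ph5 : S_PH5 := by
  intro ρ h0 h1
  rcases le_total ρ (913236 / 1000000) with h | h
  · obtain ⟨x, y, z⟩ := left ρ h0 h
    exact ⟨(min_le_right _ _).trans x, (min_le_right _ _).trans y, (min_le_right _ _).trans z⟩
  · obtain ⟨x, y, z⟩ := right ρ h h1
    exact ⟨(min_le_left _ _).trans x, (min_le_left _ _).trans y, (min_le_left _ _).trans z⟩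

end Pool.Agent.W575.IR
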